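import Pool.Agent.Lib.MP_02e52a_al.Fin.Main

/-!
# MP_02e52a_al : the classification of the Miller p-groups of order p^7, p odd, and their number
-/

namespace Pool.Agent.Results.MP_02e52a_al.Classification

open MP_02e52a.Fin

universe u

theorem result (p : ℕ) [Fact p.Prime] (hp : p ≠ 2) (ν : ZMod p) (hν : ¬ IsSquare ν) :
    (∀ (G : Type u) [Group G], Nat.card G = p ^ 7 →
      (((¬ ∀ x y : G, x * y = y * x) ∧ (∀ a b : MulAut G, a * b = b * a)) ↔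
        ∃ x : Par p, x.Ok ∧ Nonempty (G ≃* x.G ν))) ∧
    (∀ x y : Par p, x.Ok → y.Ok → (Nonempty (x.G ν ≃* y.G ν) ↔ x.Rel y)) ∧
    (∃ s : Finset (Par p),
      (3 * s.card = if p % 3 = 1 then 3 * p ^ 5 + 6 * p ^ 4 + 12 * p ^ 3 + 19 * p ^ 2 + 13 * p + 1
        else 3 * p ^ 5 + 6 * p ^ 4 + 12 * p ^ 3 + 19 * p ^ 2 + 16 * p + 9) ∧
      (∀ x ∈ s, x.Ok) ∧ (∀ x ∈ s, ∀ y ∈ s, Nonempty (x.G ν ≃* y.G ν) → x = y) ∧
      ∀ (G : Type u) [Group G], Nat.card G = p ^ 7 → (¬ ∀ x y : G, x * y = y * x) →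
        (∀ a b : MulAut G, a * b = b * a) → ∃ x ∈ s, Nonempty (G ≃* x.G ν)) ∧
    (∀ x : Par p, x.Ok → Nat.card (x.G ν) = p ^ 7 ∧
      commutator (x.G ν) = Subgroup.center (x.G ν) ∧ Nat.card (Subgroup.center (x.G ν)) = p ^ 3 ∧
      (∀ g : x.G ν, g ^ p ∈ Subgroup.center (x.G ν)) ∧ (∀ z ∈ Subgroup.center (x.G ν), z ^ p = 1) ∧
      (∀ a : MulAut (x.G ν), a ^ p = 1) ∧ Nat.card (MulAut (x.G ν)) = p ^ 12) := by
  refine ⟨fun G _ hG => class1 hp ν hν G hG, fun x y hx hy => iso1 hp ν hν x y hx hy, ?_,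
    fun x hx => props1 hp ν hν x hx⟩
  obtain ⟨s, h1, h2, h3, h4⟩ := number (p := p) hp
  refine ⟨s, h1, h2, fun x hx y hy h => h3 x hx y hy ((iso1 hp ν hν x y (h2 x hx) (h2 y hy)).1 h), ?_⟩
  intro G _ hG hn ha
  obtain ⟨y, hy, ⟨e⟩⟩ := (class1 hp ν hν G hG).1 ⟨hn, ha⟩
  obtain ⟨x, hx, hr⟩ := h4 y hy
  obtain ⟨e'⟩ := (iso1 hp ν hν y x hy (h2 x hx)).2 hr
  exact ⟨x, hx, ⟨e.trans e'⟩⟩

end Pool.Agent.Results.MP_02e52a_al.Classification
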